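import Pool.Agent.TH377.Sup.Good

/-!
# Counting the good coefficients of several polynomials modulo the square of a prime
-/

set_option autoImplicit false

namespace Pool.Agent.K3h23.BI

open Polynomial NumberField IsDedekindDomain Pool.Agent.TH120.Sec Pool.Agent.TH377.Sup

universe u

/-- the indices: one coefficient `a`, and the coefficients of the polynomials -/
abbrev Idx {I : Type} (d : I → ℕ) : Type := Option (Σ i : I, Fin (d i + 1))

variable {K : Type u} [Field K] [NumberField K] (v : HeightOneSpectrum (𝓞 K)) {I : Type}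
  (d : I → ℕ)

/-- the good vectors modulo `v ^ 2` -/
def GoodM {N : ℕ} (e : Idx d ≃ Fin N) : Set (Fin N → 𝓞 K ⧸ v.asIdeal ^ 2) :=
  letI := v.isMaximal
  letI := Ideal.Quotient.field v.asIdeal
  {x | pr v (x (e none)) = 0 ∧ x (e none) ≠ 0 ∧
    ∀ i, (fun j => pr v (x (e (some ⟨i, j⟩)))) ∈ Irr (𝓞 K ⧸ v.asIdeal) (d i)}

lemma goodM_iff {N : ℕ} (e : Idx d ≃ Fin N) (y : Fin N → 𝓞 K)
    (hy : red (v.asIdeal ^ 2) N y ∈ GoodM v d e) :
    y (e none) ∈ v.asIdeal ∧ y (e none) ∉ v.asIdeal ^ 2 ∧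
      ∀ i, IrrMod v (d i) fun j => y (e (some ⟨i, j⟩)) := by
  obtain ⟨h1, h2, h3⟩ := hy
  refine ⟨Ideal.Quotient.eq_zero_iff_mem.1 h1, fun h => h2 (Ideal.Quotient.eq_zero_iff_mem.2 h),
    fun i => ⟨fun h => (h3 i).1 (Ideal.Quotient.eq_zero_iff_mem.2 h), (h3 i).2⟩⟩

lemma two_le_norm : 2 ≤ Ideal.absNorm v.asIdeal := by
  by_contra h
  have h3 : Ideal.absNorm v.asIdeal = 0 ∨ Ideal.absNorm v.asIdeal = 1 := by omega
  rcases h3 with h3 | h3
  · exact absurd h3 (Pool.Agent.W417.SecC.D2.norm_pos v).ne'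
  · rw [Ideal.absNorm_eq_one_iff] at h3
    exact v.isPrime.ne_top h3

variable [Fintype I]

lemma goodM_card {N : ℕ} (e : Idx d ≃ Fin N) :
    letI := v.isMaximal
    letI := Ideal.Quotient.field v.asIdeal
    (Ideal.absNorm v.asIdeal - 1) * ∏ i, ((Irr (𝓞 K ⧸ v.asIdeal) (d i)).ncard *
      Ideal.absNorm v.asIdeal ^ (d i + 1)) ≤ (GoodM v d e).ncard := by
  classical
  have hfin := finite_sq v
  have hmax : v.asIdeal.IsMaximal := v.isMaximal
  have hfin' : Finite (𝓞 K ⧸ v.asIdeal) := Ideal.finiteQuotientOfFreeOfNeBot _ v.ne_bot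
  let _ : Field (𝓞 K ⧸ v.asIdeal) := Ideal.Quotient.field _
  set q := Ideal.absNorm v.asIdeal with hq
  set J : Set (𝓞 K ⧸ v.asIdeal ^ 2) := {x | pr v x = 0} with hJ
  have hJc : J.ncard = q := ker_ncard v
  have hJ0 : (J \ {0}).ncard = q - 1 := by
    rw [Set.ncard_sdiff_singleton_of_mem (show (0 : 𝓞 K ⧸ v.asIdeal ^ 2) ∈ J from map_zero _), hJc]
  have hJp : (Set.pi Set.univ fun _ : (Σ i : I, Fin (d i + 1)) => J).ncard =
      ∏ i, q ^ (d i + 1) := by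
    rw [← Nat.card_coe_set_eq, Nat.card_congr (Equiv.Set.univPi _), Nat.card_pi]
    simp only [Nat.card_coe_set_eq, hJc, Finset.prod_const, Finset.card_univ]
    rw [Fintype.card_sigma, Finset.prod_pow_eq_pow_sum]
    simp only [Fintype.card_fin]
  have hIp : (Set.pi Set.univ fun i : I => Irr (𝓞 K ⧸ v.asIdeal) (d i)).ncard =
      ∏ i, (Irr (𝓞 K ⧸ v.asIdeal) (d i)).ncard := by
    rw [← Nat.card_coe_set_eq, Nat.card_congr (Equiv.Set.univPi _), Nat.card_pi]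
    simp only [Nat.card_coe_set_eq]
  let s := Function.surjInv (pr_surj v)
  have hs : ∀ x, pr v (s x) = x := Function.surjInv_eq (pr_surj v)
  let Ψ : ((𝓞 K ⧸ v.asIdeal ^ 2) × (∀ i : I, Fin (d i + 1) → 𝓞 K ⧸ v.asIdeal)) ×
      ((Σ i : I, Fin (d i + 1)) → 𝓞 K ⧸ v.asIdeal ^ 2) → (Idx d → 𝓞 K ⧸ v.asIdeal ^ 2) :=
    fun x m => Option.casesOn m x.1.1 (fun p => s (x.1.2 p.1 p.2) + x.2 p)
  have h1 : (((J \ {0}) ×ˢ (Set.pi Set.univ fun i : I => Irr (𝓞 K ⧸ v.asIdeal) (d i))) ×ˢ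
      (Set.pi Set.univ fun _ : (Σ i : I, Fin (d i + 1)) => J)).ncard ≤ (GoodM v d e).ncard := by
    refine Set.ncard_le_ncard_of_injOn (fun x n => Ψ x (e.symm n)) ?_ ?_ (Set.toFinite _)
    · rintro ⟨⟨j, c⟩, t⟩ ⟨⟨hj, hc⟩, ht⟩
      have e1 : ∀ p : (Σ i : I, Fin (d i + 1)), pr v (s (c p.1 p.2) + t p) = c p.1 p.2 := by
        intro p
        rw [map_add, hs, show pr v (t p) = 0 from ht p (Set.mem_univ p), add_zero]
      refine ⟨?_, ?_, ?_⟩
      · change pr v (Ψ ((j, c), t) (e.symm (e none))) = 0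
        rw [e.symm_apply_apply]
        exact hj.1
      · change Ψ ((j, c), t) (e.symm (e none)) ≠ 0
        rw [e.symm_apply_apply]
        exact hj.2
      · intro i
        have e2 : (fun j' : Fin (d i + 1) => pr v (Ψ ((j, c), t) (e.symm (e (some ⟨i, j'⟩))))) =
            c i := by
          funext j'
          rw [e.symm_apply_apply]
          exact e1 ⟨i, j'⟩
        change (fun j' : Fin (d i + 1) => pr v (Ψ ((j, c), t) (e.symm (e (some ⟨i, j'⟩))))) ∈ _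
        rw [e2]
        exact hc i (Set.mem_univ i)
    · rintro ⟨⟨j, c⟩, t⟩ ⟨⟨hj, hc⟩, ht⟩ ⟨⟨j', c'⟩, t'⟩ ⟨⟨hj', hc'⟩, ht'⟩ h
      have h' : ∀ m, Ψ ((j, c), t) m = Ψ ((j', c'), t') m := by
        intro m
        have h2 := congrFun h (e m)
        simp only [e.symm_apply_apply] at h2
        exact h2
      have h0 : j = j' := h' none
      have h1 : ∀ p : (Σ i : I, Fin (d i + 1)), s (c p.1 p.2) + t p = s (c' p.1 p.2) + t' p :=
        fun p => h' (some p)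
      have e1 : c = c' := by
        funext i l
        have := congrArg (pr v) (h1 ⟨i, l⟩)
        rwa [map_add, map_add, hs, hs, show pr v (t ⟨i, l⟩) = 0 from ht _ (Set.mem_univ _),
          show pr v (t' ⟨i, l⟩) = 0 from ht' _ (Set.mem_univ _), add_zero, add_zero] at this
      subst h0 e1
      have e2 : t = t' := by
        funext p
        have := h1 p
        rwa [add_right_inj] at this
      rw [e2]
  rw [Set.ncard_prod, Set.ncard_prod, hJp, hJ0, hIp, mul_assoc, ← Finset.prod_mul_distrib] at h1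
  exact h1

/-- the complement of the good vectors -/
lemma badM_card (hd : ∀ i, 3 ≤ d i) {N : ℕ} (e : Idx d ≃ Fin N) :
    (((GoodM v d e)ᶜ).ncard : ℝ) ≤ (1 - (∏ i, (1 / (4 * (d i : ℝ)))) *
      (1 / (Ideal.absNorm v.asIdeal : ℝ) - 1 / (Ideal.absNorm v.asIdeal : ℝ) ^ 2)) *
        ((Ideal.absNorm v.asIdeal : ℝ) ^ 2) ^ N := by
  classical
  have hfin := finite_sq v
  have hmax : v.asIdeal.IsMaximal := v.isMaximal
  have hfin' : Finite (𝓞 K ⧸ v.asIdeal) := Ideal.finiteQuotientOfFreeOfNeBot _ v.ne_bot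
  let _ : Field (𝓞 K ⧸ v.asIdeal) := Ideal.Quotient.field _
  have h1 := goodM_card v d e
  have h2 : (GoodM v d e).ncard + ((GoodM v d e)ᶜ).ncard = (Ideal.absNorm v.asIdeal ^ 2) ^ N := by
    rw [Set.ncard_add_ncard_compl, Nat.card_fun, Pool.Agent.W417.SecC.D2.card_sq, Nat.card_fin]
  have hN2 := two_le_norm v
  have hNe : N = 1 + ∑ i, (d i + 1) := by
    have h3 := Fintype.card_congr e
    rw [Fintype.card_fin, Fintype.card_option, Fintype.card_sigma] at h3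
    simp only [Fintype.card_fin] at h3
    omega
  set q := Ideal.absNorm v.asIdeal with hq
  have hqr : (2 : ℝ) ≤ q := by exact_mod_cast hN2
  have h3 : ((GoodM v d e).ncard : ℝ) + (((GoodM v d e)ᶜ).ncard : ℝ) = ((q : ℝ) ^ 2) ^ N := by
    exact_mod_cast h2
  have h4 : ((q : ℝ) - 1) * ∏ i, (((Irr (𝓞 K ⧸ v.asIdeal) (d i)).ncard : ℝ) *
      (q : ℝ) ^ (d i + 1)) ≤ ((GoodM v d e).ncard : ℝ) := by
    have h5 : ((q - 1 : ℕ) : ℝ) = (q : ℝ) - 1 := by
      rw [Nat.cast_sub (by omega)]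
      norm_num
    rw [← h5]
    exact_mod_cast h1
  have h5 : ∀ i, (1 / (4 * (d i : ℝ))) * ((q : ℝ) ^ 2) ^ (d i + 1) ≤
      ((Irr (𝓞 K ⧸ v.asIdeal) (d i)).ncard : ℝ) * (q : ℝ) ^ (d i + 1) := by
    intro i
    have h6 := irr_card (𝓞 K ⧸ v.asIdeal) (d i) (hd i)
    rw [card_residue, ← hq] at h6
    have h7 : ((q : ℝ) - 1) * (q : ℝ) ^ d i ≤
        2 * d i * ((Irr (𝓞 K ⧸ v.asIdeal) (d i)).ncard : ℝ) := by
      have h8 : ((q - 1 : ℕ) : ℝ) = (q : ℝ) - 1 := by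
        rw [Nat.cast_sub (by omega)]
        norm_num
      rw [← h8]
      exact_mod_cast h6
    have hdr : (0 : ℝ) < d i := by
      have : 0 < d i := by have := hd i; omega
      exact_mod_cast this
    have h9 : (1 / (4 * (d i : ℝ))) * (q : ℝ) ^ (d i + 1) ≤
        ((Irr (𝓞 K ⧸ v.asIdeal) (d i)).ncard : ℝ) := by
      rw [div_mul_eq_mul_div, div_le_iff₀ (by positivity)]
      have h10 : 0 ≤ (q : ℝ) ^ d i := by positivity
      rw [pow_succ]
      nlinarith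
    have h11 : 0 ≤ (q : ℝ) ^ (d i + 1) := by positivity
    calc (1 / (4 * (d i : ℝ))) * ((q : ℝ) ^ 2) ^ (d i + 1)
        = (1 / (4 * (d i : ℝ))) * (q : ℝ) ^ (d i + 1) * (q : ℝ) ^ (d i + 1) := by ring
      _ ≤ _ := mul_le_mul_of_nonneg_right h9 h11
  have h6 : (∏ i, (1 / (4 * (d i : ℝ)))) * ∏ i, ((q : ℝ) ^ 2) ^ (d i + 1) ≤
      ∏ i, (((Irr (𝓞 K ⧸ v.asIdeal) (d i)).ncard : ℝ) * (q : ℝ) ^ (d i + 1)) := by
    rw [← Finset.prod_mul_distrib]
    exact Finset.prod_le_prod (fun i _ => by positivity) fun i _ => h5 i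
  have h7 : ((q : ℝ) ^ 2) ^ N = (q : ℝ) ^ 2 * ∏ i, ((q : ℝ) ^ 2) ^ (d i + 1) := by
    rw [hNe, pow_add, pow_one, Finset.prod_pow_eq_pow_sum]
  have h8 : ((q : ℝ) - 1) * ((∏ i, (1 / (4 * (d i : ℝ)))) * ∏ i, ((q : ℝ) ^ 2) ^ (d i + 1)) ≤
      ((GoodM v d e).ncard : ℝ) :=
    (mul_le_mul_of_nonneg_left h6 (by linarith)).trans h4
  have h9 : (1 - (∏ i, (1 / (4 * (d i : ℝ)))) * (1 / (q : ℝ) - 1 / (q : ℝ) ^ 2)) *
      ((q : ℝ) ^ 2) ^ N = ((q : ℝ) ^ 2) ^ N -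
        ((q : ℝ) - 1) * ((∏ i, (1 / (4 * (d i : ℝ)))) * ∏ i, ((q : ℝ) ^ 2) ^ (d i + 1)) := by
    rw [h7]
    have hq0 : (q : ℝ) ≠ 0 := by linarith
    field_simp
  rw [h9]
  linarith

end Pool.Agent.K3h23.BI
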