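import Pool.Agent.K3h23.BI.Group

/-!
# Sections and discrete valuations
-/

set_option autoImplicit false

namespace Pool.Agent.K3h23.BI

open Polynomial IntermediateField Pool.Agent.W620.SC IsLocalRing

universe u v w x y

/-- the valuations of the elements of the group of the norms -/
theorem NG_vdiv {R : Type*} [CommRing R] [IsDomain R] [IsDiscreteValuationRing R] {k : Type u}
    [Field k] [CharZero k] [Algebra R k] [IsFractionRing R k] {ϖ : R} (hϖ : Irreducible ϖ) (M : ℕ)
    {I : Type*} (f : I → R[X]) (hlc : ∀ i, IsUnit (f i).leadingCoeff)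
    (hM : ∀ i, ∀ g : (ResidueField R)[X], Irreducible g → g ∣ (f i).map (residue R) →
      M ∣ g.natDegree) (z : kˣ) (hz : z ∈ NG M (fun i => (f i).map (algebraMap R k))) :
    VDiv ϖ M (z : k) := by
  classical
  refine Subgroup.closure_induction (p := fun (z : kˣ) _ => VDiv ϖ M (z : k)) ?_ ?_ ?_ ?_ hz
  · rintro z (⟨r, rfl⟩ | ⟨i, p, hp, hpi, c, hc⟩)
    · rw [Units.val_pow_eq_pow_val]
      exact VDiv.pow hϖ r.ne_zero dvd_rfl
    · have hfact : Fact (Irreducible p) := ⟨hp⟩
      have hf1 : FiniteDimensional k (AdjoinRoot p) := (AdjoinRoot.powerBasis hp.ne_zero).finite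
      have hc0 : c ≠ 0 := by
        rintro rfl
        have h1 : Algebra.norm k (0 : AdjoinRoot p) = 0 := Algebra.norm_zero
        rw [h1] at hc
        exact z.ne_zero hc
      rw [hc]
      refine norm_vdiv hϖ M (f i) (hM i) (hlc i) (AdjoinRoot.root p) ?_ c hc0
      obtain ⟨q, hq⟩ := hpi
      have hq' : (f i).map (algebraMap R k) = p * q := hq
      rw [hq', map_mul, AdjoinRoot.aeval_eq, AdjoinRoot.mk_self, zero_mul]
  · exact VDiv.one
  · intro x y _ _ hx hy
    rw [Units.val_mul]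
    exact hx.mul hϖ hy
  · intro x _ hx
    rw [Units.val_inv_eq_inv_val]
    exact hx.inv hϖ

/-- a surjection onto a field from a local ring -/
lemma residue_equiv {A κ : Type*} [CommRing A] [IsLocalRing A] [Field κ] (ρ : A →+* κ)
    (hρ : Function.Surjective ρ) : ∃ ε : ResidueField A ≃+* κ,
      (ε : ResidueField A →+* κ).comp (residue A) = ρ := by
  have hmax : (RingHom.ker ρ).IsMaximal := RingHom.ker_isMaximal_of_surjective ρ hρ
  have hker : maximalIdeal A = RingHom.ker ρ := (IsLocalRing.eq_maximalIdeal hmax).symm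
  refine ⟨(Ideal.quotEquivOfEq hker).trans (RingHom.quotientKerEquivOfSurjective hρ), ?_⟩
  ext x
  rfl

lemma factors_transport {A κ : Type*} [CommRing A] [IsLocalRing A] [Field κ] (ρ : A →+* κ)
    (hρ : Function.Surjective ρ) (M : ℕ) (f : A[X])
    (hM : ∀ g : κ[X], Irreducible g → g ∣ f.map ρ → M ∣ g.natDegree)
    (g : (ResidueField A)[X]) (hg : Irreducible g) (hgf : g ∣ f.map (residue A)) :
    M ∣ g.natDegree := by
  obtain ⟨ε, hε⟩ := residue_equiv ρ hρ
  have h1 : Irreducible (g.map (ε : ResidueField A →+* κ)) :=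
    (MulEquiv.irreducible_iff (Polynomial.mapEquiv ε)).2 hg
  have h2 := Polynomial.map_dvd (ε : ResidueField A →+* κ) hgf
  rw [Polynomial.map_map, hε] at h2
  have h3 := hM _ h1 h2
  rwa [natDegree_map] at h3

variable {k : Type u} {L : Type x} {F : Type v} {Ω : Type w} [Field k] [Field L] [Field F]
  [Field Ω] [Algebra k L] [Algebra L F] [Algebra F Ω] [Algebra L Ω] [IsScalarTower L F Ω]

theorem section_dvd [CharZero k] [FiniteDimensional k L] [IsAlgClosed Ω] [Algebra.IsAlgebraic F Ω]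
    (A : ValuationSubring k) [IsDiscreteValuationRing A] {κ : Type y} [Field κ] (ρ : A →+* κ)
    (hρ : Function.Surjective ρ)
    (N : IntermediateField F Ω) (hN : ∀ x ∈ algebraicClosure L Ω, x ∈ N)
    {M : ℕ} (hM0 : 0 < M) {I : Type*} [Fintype I] (f : I → A[X])
    (hlc : ∀ i, IsUnit (f i).leadingCoeff)
    (hM : ∀ i, ∀ g : κ[X], Irreducible g → g ∣ (f i).map ρ → M ∣ g.natDegree)
    (ϖ t : A) (hϖ : Irreducible ϖ) (ht : IsUnit t) (m : ℤ) (a : k)
    (ha : a = (t : k) * (ϖ : k) ^ m)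
    (h : I → F[X]) (y : F) (hy : y ≠ 0)
    (heq : algebraMap L Ω (algebraMap k L a) * algebraMap F Ω y ^ M =
      ∏ i, (((((f i).map (algebraMap A k)).map (algebraMap k L)).aroots Ω).map
        (fun ρ => aeval ρ (h i))).prod)
    (hroot : ∀ i, ∀ ρ ∈ (((f i).map (algebraMap A k)).map (algebraMap k L)).aroots Ω,
      ∃ w ∈ N, w ^ M = aeval ρ (h i))
    (S : Sec L F Ω N) : (M : ℤ) ∣ m * Module.finrank k L := by
  classical
  have hϖ0 : (ϖ : k) ≠ 0 := ϖ_ne (k := k) hϖ
  have ht0 : (t : k) ≠ 0 := by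
    have := (ht.map (algebraMap A k)).ne_zero
    exact this
  have ha0 : a ≠ 0 := by
    rw [ha]
    exact mul_ne_zero ht0 (zpow_ne_zero _ hϖ0)
  have hf0 : ∀ i, (f i).map (algebraMap A k) ≠ 0 := by
    intro i h0
    have h1 : f i = 0 := (Polynomial.map_eq_zero_iff (IsFractionRing.injective A k)).1 h0
    have h2 := (hlc i).ne_zero
    rw [h1, leadingCoeff_zero] at h2
    exact h2 rfl
  have h1 := section_NG N hN hM0 (fun i => (f i).map (algebraMap A k)) hf0 h
    (Units.mk0 a ha0) y hy heq hroot S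
  obtain ⟨t', m', hm', h2⟩ := NG_vdiv hϖ M f hlc
    (fun i g hg hgf => factors_transport ρ hρ M (f i) (hM i) g hg hgf) _ h1
  obtain ⟨u, hu⟩ := ht
  have h3 : ((Units.mk0 a ha0 ^ Module.finrank k L : kˣ) : k) =
      algebraMap A k ((u ^ Module.finrank k L : Aˣ) : A) *
        algebraMap A k ϖ ^ (m * Module.finrank k L) := by
    rw [Units.val_pow_eq_pow_val, Units.val_mk0, ha, mul_pow, Units.val_pow_eq_pow_val, map_pow,
      hu, zpow_mul, zpow_natCast]
    rfl
  have h4 := val_unique hϖ _ _ _ _ (h3.symm.trans h2)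
  rw [h4]
  exact hm'

end Pool.Agent.K3h23.BI
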