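import Pool.Agent.K3h23.GF.EmbD
import Pool.Agent.K3h23.BI.Loc

/-!
# The local data for several polynomials from an embedding into the completion of a number field
-/

set_option autoImplicit false

namespace Pool.Agent.K3h23.BI

open Polynomial WithZero NumberField IsDedekindDomain Pool.Agent.W858.SF Pool.Agent.W620.SC
  Pool.Agent.W623.SecC Pool.Agent.TH120.Sec Pool.Agent.TH377.Sup

universe u v w x y

/-- the local data -/
def DataM (k : Type u) [Field k] {I : Type} (a : k) (g : I → k[X]) : Prop :=
  ∃ (A : ValuationSubring k) (_ : IsDiscreteValuationRing A) (f : I → A[X]),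
    (∀ i, (f i).map (algebraMap A k) = g i) ∧ (∀ i, IsUnit (f i).leadingCoeff) ∧
    (∀ i, Irreducible ((f i).map (IsLocalRing.residue A))) ∧
    ∃ (ϖ t : A) (m : ℤ), Irreducible ϖ ∧ IsUnit t ∧ (m = 1 ∨ m = -1) ∧
      a = (t : k) * (ϖ : k) ^ m

theorem dataM_val {k : Type u} {E : Type x} [Field k] [CharZero k] [Field E]
    (V : Valuation E ℤᵐ⁰) (ψ : k →+* E) {I : Type} (g : I → k[X])
    (gB : I → V.valuationSubring[X])
    (hg : ∀ i, (gB i).map (algebraMap V.valuationSubring E) = (g i).map ψ)
    (hlc : ∀ i, IsUnit (gB i).leadingCoeff)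
    (hirr : ∀ i, Irreducible ((gB i).map (IsLocalRing.residue V.valuationSubring)))
    (a : k) (ha : V (ψ a) = exp (-1)) : DataM k a g := by
  classical
  obtain ⟨hdvr, ϖ, t, n, hϖ, ht, hn, hat⟩ := Pool.Agent.W858.SF.exists_unif (V.comap ψ) a (-1)
    (by decide) ha
  let i : (V.comap ψ).valuationSubring →+* V.valuationSubring :=
    { toFun := fun y => ⟨ψ y, y.2⟩
      map_one' := Subtype.ext (map_one ψ)
      map_mul' := fun y z => Subtype.ext (map_mul ψ _ _)
      map_zero' := Subtype.ext (map_zero ψ)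
      map_add' := fun y z => Subtype.ext (map_add ψ _ _) }
  have hcoe : ∀ y, ((i y : V.valuationSubring) : E) = ψ (y : k) := fun _ => rfl
  have hinj : Function.Injective i := by
    intro y z hyz
    apply Subtype.ext
    apply ψ.injective
    have := congrArg Subtype.val hyz
    exact this
  have hloc : IsLocalHom i := by
    refine ⟨fun y hy => ?_⟩
    have h1 := (Valuation.Integers.isUnit_iff_valuation_eq_one
      (Valuation.valuationSubring.integers V)).1 hy
    exact (Valuation.Integers.isUnit_iff_valuation_eq_one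
      (Valuation.valuationSubring.integers (V.comap ψ))).2 h1
  have hex : ∀ s, ∃ f : (V.comap ψ).valuationSubring[X],
      f.map (algebraMap (V.comap ψ).valuationSubring k) = g s := by
    intro s
    have h1 : g s ∈ Polynomial.lifts (algebraMap (V.comap ψ).valuationSubring k) := by
      rw [Polynomial.lifts_iff_coeff_lifts]
      intro j
      have h3 : ψ ((g s).coeff j) = ((gB s).coeff j : E) := by
        have := congrArg (fun q => q.coeff j) (hg s)
        simp only [coeff_map] at this
        exact this.symm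
      exact ⟨⟨(g s).coeff j, by
        change V (ψ ((g s).coeff j)) ≤ 1
        rw [h3]
        exact ((gB s).coeff j).2⟩, rfl⟩
    obtain ⟨f, hf⟩ := (Polynomial.mem_lifts _).1 h1
    exact ⟨f, hf⟩
  choose f hf using hex
  have hfB : ∀ s, (f s).map i = gB s := by
    intro s
    apply Polynomial.map_injective (algebraMap V.valuationSubring E) Subtype.val_injective
    rw [hg, ← hf, Polynomial.map_map, Polynomial.map_map]
    rfl
  have hlcf : ∀ s, IsUnit (f s).leadingCoeff := by
    intro s
    have h1 : i (f s).leadingCoeff = (gB s).leadingCoeff := by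
      rw [← hfB]
      exact (leadingCoeff_map_of_injective hinj (f s)).symm
    have h2 := hlc s
    rw [← h1] at h2
    exact hloc.map_nonunit _ h2
  have hfi : ∀ s, Irreducible ((f s).map (IsLocalRing.residue (V.comap ψ).valuationSubring)) := by
    intro s
    refine irr_of_map (IsLocalRing.ResidueField.map i) _ ?_
    rw [Polynomial.map_map, IsLocalRing.ResidueField.map_comp_residue, ← Polynomial.map_map, hfB]
    exact hirr s
  have hn1 : n = 1 ∨ n = -1 := by
    have e1 : V (ψ (t : k)) = 1 := (Valuation.Integers.isUnit_iff_valuation_eq_one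
      (Valuation.valuationSubring.integers (V.comap ψ))).1 ht
    have e2 : ψ (ϖ : k) ≠ 0 := by
      rw [Ne, map_eq_zero]
      intro h
      exact hϖ.ne_zero (Subtype.ext h)
    have e3 : V (ψ (ϖ : k)) = exp (log (V (ψ (ϖ : k)))) :=
      (exp_log ((Valuation.ne_zero_iff V).2 e2)).symm
    have e4 : V (ψ a) = exp (n * log (V (ψ (ϖ : k)))) := by
      rw [hat, map_mul, map_mul, map_zpow₀, map_zpow₀, e1, one_mul]
      conv_lhs => rw [e3]
      rw [← exp_zsmul, smul_eq_mul]
    rw [ha, exp_inj] at e4
    have e5 : IsUnit n := by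
      refine IsUnit.of_mul_eq_one (-log (V (ψ (ϖ : k)))) ?_
      rw [mul_neg, ← e4]
      norm_num
    exact Int.isUnit_iff.1 e5
  exact ⟨(V.comap ψ).valuationSubring, hdvr, f, hf, hlcf, hfi, ϖ, t, n, hϖ, ht, hn1, hat⟩

theorem dataM_embR {L : Type x} [Field L] [NumberField L] (v : HeightOneSpectrum (𝓞 L))
    {R : Type y} [CommRing R] {k : Type u} [Field k] [CharZero k] [Algebra R k]
    (P : R →+* L) (ψ : k →+* v.adicCompletion L)
    (hPint : ∀ r, v.valuation L (P r) ≤ 1)
    (hψ : ∀ r, vv v (ψ (algebraMap R k r) - algebraMap L (v.adicCompletion L) (P r)) ≤ exp (-2))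
    {I : Type} (d : I → ℕ) (a : R) (c : ∀ i, Fin (d i + 1) → R)
    (b : 𝓞 L) (y : ∀ i, Fin (d i + 1) → 𝓞 L)
    (hab : v.valuation L (P a - algebraMap (𝓞 L) L b) ≤ exp (-2))
    (hcy : ∀ i j, v.valuation L (P (c i j) - algebraMap (𝓞 L) L (y i j)) ≤ exp (-2))
    (hb : b ∈ v.asIdeal) (hb' : b ∉ v.asIdeal ^ 2) (hirr : ∀ i, IrrMod v (d i) (y i)) :
    algebraMap R k a ≠ 0 ∧ (∀ i, algebraMap R k (c i (Fin.last (d i))) ≠ 0) ∧
    DataM k (algebraMap R k a) (fun i => pol fun j => algebraMap R k (c i j)) := by
  classical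
  have hfinres := finite_residue v
  have hmax : v.asIdeal.IsMaximal := v.isMaximal
  let _ := Ideal.Quotient.field v.asIdeal
  obtain ⟨θ, hθ, hθr⟩ := exists_residue_map v
  have hθinj : Function.Injective θ := θ.injective
  have hγ2 : (exp (-2) : ℤᵐ⁰) < 1 := by
    rw [← exp_zero, exp_lt_exp]
    omega
  have hPv : ∀ r, vv v (algebraMap L (v.adicCompletion L) (P r)) ≤ 1 := fun r => by
    rw [vv_algebraMap]
    exact hPint r
  have hψ1 : ∀ r, vv v (ψ (algebraMap R k r)) ≤ 1 := by
    intro r
    have h1 : ψ (algebraMap R k r) = (ψ (algebraMap R k r) -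
      algebraMap L (v.adicCompletion L) (P r)) + algebraMap L (v.adicCompletion L) (P r) := by ring
    rw [h1]
    exact (Valuation.map_add _ _ _).trans (max_le ((hψ r).trans hγ2.le) (hPv r))
  have hnear : ∀ (r : R) (z : 𝓞 L), v.valuation L (P r - algebraMap (𝓞 L) L z) ≤ exp (-2) →
      vv v (ψ (algebraMap R k r) -
        algebraMap L (v.adicCompletion L) (algebraMap (𝓞 L) L z)) ≤ exp (-2) := by
    intro r z hz
    have h1 : ψ (algebraMap R k r) -
        algebraMap L (v.adicCompletion L) (algebraMap (𝓞 L) L z) =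
        (ψ (algebraMap R k r) - algebraMap L (v.adicCompletion L) (P r)) +
        algebraMap L (v.adicCompletion L) (P r - algebraMap (𝓞 L) L z) := by
      rw [map_sub]
      ring
    rw [h1]
    refine (Valuation.map_add _ _ _).trans (max_le (hψ _) ?_)
    rw [vv_algebraMap]
    exact hz
  let cB : ∀ i, Fin (d i + 1) → (vv v).valuationSubring := fun i j =>
    ⟨ψ (algebraMap R k (c i j)), hψ1 _⟩
  have hres : ∀ i j, IsLocalRing.residue _ (cB i j) =
      θ (Ideal.Quotient.mk v.asIdeal (y i j)) := by
    intro i j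
    exact hθr _ _ ((hnear _ _ (hcy i j)).trans_lt hγ2)
  have hlast : ∀ i, IsUnit (cB i (Fin.last (d i))) := by
    intro i
    have h5 : cB i (Fin.last (d i)) ∉ IsLocalRing.maximalIdeal (vv v).valuationSubring := by
      intro h6
      have h7 : IsLocalRing.residue _ (cB i (Fin.last (d i))) = 0 :=
        (IsLocalRing.residue_eq_zero_iff _).2 h6
      rw [hres, map_eq_zero_iff _ hθinj, Ideal.Quotient.eq_zero_iff_mem] at h7
      exact (hirr i).1 h7
    by_contra h6
    exact h5 ((IsLocalRing.mem_maximalIdeal _).2 h6)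
  have hlast0 : ∀ i, cB i (Fin.last (d i)) ≠ 0 := fun i => (hlast i).ne_zero
  have hck : ∀ i, algebraMap R k (c i (Fin.last (d i))) ≠ 0 := by
    intro i h0
    apply hlast0 i
    apply Subtype.ext
    change ψ (algebraMap R k (c i (Fin.last (d i)))) = 0
    rw [h0, map_zero]
  have ha : vv v (ψ (algebraMap R k a)) = exp (-1) := by
    have h5 : ψ (algebraMap R k a) = (ψ (algebraMap R k a) -
      algebraMap L (v.adicCompletion L) (algebraMap (𝓞 L) L b)) +
      algebraMap L (v.adicCompletion L) (algebraMap (𝓞 L) L b) := by ring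
    have h7 := val_eq_of v b hb hb'
    have h6 : vv v (ψ (algebraMap R k a) - algebraMap L (v.adicCompletion L)
        (algebraMap (𝓞 L) L b)) <
        vv v (algebraMap L (v.adicCompletion L) (algebraMap (𝓞 L) L b)) := by
      rw [vv_algebraMap, h7]
      refine (hnear _ _ hab).trans_lt ?_
      rw [exp_lt_exp]
      omega
    rw [h5, Valuation.map_add_eq_of_lt_right _ h6, vv_algebraMap, h7]
  refine ⟨?_, hck, ?_⟩
  · intro h0
    rw [h0, map_zero, map_zero] at ha
    exact exp_ne_zero ha.symm
  refine dataM_val (vv v) ψ _ (fun i => pol (cB i)) (fun i => ?_) (fun i => ?_) (fun i => ?_) _ ha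
  · rw [pol_map, pol_map]
    rfl
  · rw [pol_leadingCoeff _ (hlast0 i)]
    exact hlast i
  · have h4 : (pol (cB i)).map (IsLocalRing.residue (vv v).valuationSubring) =
        (pol fun j => Ideal.Quotient.mk v.asIdeal (y i j)).map θ := by
      rw [pol_map, pol_map]
      simp only [hres]
    rw [h4]
    exact (MulEquiv.irreducible_iff (Polynomial.mapEquiv
      (RingEquiv.ofBijective θ ⟨hθinj, hθ⟩)).toMulEquiv).2 (hirr i).2

end Pool.Agent.K3h23.BI
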