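import Pool.Agent.K3h23.BI.Sec

/-!
# The group of the norms
-/

set_option autoImplicit false

namespace Pool.Agent.K3h23.BI

open Polynomial IntermediateField Pool.Agent.W620.SC

universe u v w x

/-- the group generated by the `n`-th powers and by the norms of the fields `k[X]/(p)`, `p` an
irreducible factor of one of the polynomials `f i` -/
def NG {k : Type u} [Field k] {I : Type x} (n : ℕ) (f : I → k[X]) : Subgroup kˣ :=
  Subgroup.closure {u | (∃ r : kˣ, u = r ^ n) ∨ ∃ (i : I) (p : k[X]), Irreducible p ∧ p ∣ f i ∧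
    ∃ c : AdjoinRoot p, (u : k) = Algebra.norm k c}

/-- the norms of finite extensions which contain a root -/
lemma norm_mem_NG {k : Type u} [Field k] [CharZero k] {I : Type x} (n : ℕ) (f : I → k[X])
    {E : Type*} [Field E] [Algebra k E] [FiniteDimensional k E] (i : I) (θ : E)
    (hθ : aeval θ (f i) = 0) (c : E) (z : kˣ) (hz : (z : k) = Algebra.norm k c) : z ∈ NG n f := by
  classical
  have hint : IsIntegral k θ := Algebra.IsIntegral.isIntegral θ
  set p := minpoly k θ with hp
  have hirr : Irreducible p := minpoly.irreducible hint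
  have hfact : Fact (Irreducible p) := ⟨hirr⟩
  let φ : AdjoinRoot p →ₐ[k] E := AdjoinRoot.liftAlgHom p (Algebra.ofId k E) θ (minpoly.aeval k θ)
  let _ : Algebra (AdjoinRoot p) E := φ.toRingHom.toAlgebra
  have hst : IsScalarTower k (AdjoinRoot p) E := IsScalarTower.of_algebraMap_eq
    (fun x => (φ.commutes x).symm)
  have hf1 : FiniteDimensional k (AdjoinRoot p) := (AdjoinRoot.powerBasis hirr.ne_zero).finite
  have hf2 : FiniteDimensional (AdjoinRoot p) E := FiniteDimensional.right k (AdjoinRoot p) E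
  apply Subgroup.subset_closure
  refine Or.inr ⟨i, p, hirr, minpoly.dvd _ _ hθ, Algebra.norm (AdjoinRoot p) c, ?_⟩
  rw [hz, Algebra.norm_norm]

/-- the roots of a polynomial are the roots of its irreducible factors -/
lemma prod_roots {L Ω B : Type*} [Field L] [CharZero L] [Field Ω] [Algebra L Ω] [IsAlgClosed Ω]
    [CommMonoid B] (g : L[X]) (q : Ω → B) (P : Multiset L[X]) (h0 : (0 : L[X]) ∉ P)
    (hPg : Associated P.prod g) :
    ((g.aroots Ω).map q).prod = (P.map (fun p => ((p.aroots Ω).map q).prod)).prod := by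
  classical
  obtain ⟨u, hu⟩ := hPg
  have h2 : g.aroots Ω = P.prod.aroots Ω := by
    obtain ⟨c, hc, hcu⟩ := Polynomial.isUnit_iff.1 u.isUnit
    rw [← hu, ← hcu, mul_comm]
    exact aroots_C_mul _ hc.ne_zero
  rw [h2]
  have key : ∀ Q : Multiset L[X], (0 : L[X]) ∉ Q →
      ((Q.prod.aroots Ω).map q).prod = (Q.map (fun p => ((p.aroots Ω).map q).prod)).prod := by
    intro Q
    induction Q using Multiset.induction with
    | empty => intro _; simp
    | cons p Q ih =>
      intro hQ
      rw [Multiset.mem_cons, not_or] at hQ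
      have h3 : p * Q.prod ≠ 0 := mul_ne_zero (Ne.symm hQ.1) (Multiset.prod_ne_zero hQ.2)
      rw [Multiset.prod_cons, aroots_mul h3, Multiset.map_add, Multiset.prod_add, ih hQ.2,
        Multiset.map_cons, Multiset.prod_cons]
  exact key P h0

variable {k : Type u} {L : Type x} {F : Type v} {Ω : Type w} [Field k] [Field L] [Field F]
  [Field Ω] [Algebra k L] [Algebra L F] [Algebra F Ω] [Algebra L Ω] [IsScalarTower L F Ω]

theorem section_NG [CharZero k] [FiniteDimensional k L] [IsAlgClosed Ω] [Algebra.IsAlgebraic F Ω]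
    (N : IntermediateField F Ω) (hN : ∀ x ∈ algebraicClosure L Ω, x ∈ N)
    {n : ℕ} (hn : 0 < n) {I : Type*} [Fintype I] (f : I → k[X]) (hf : ∀ i, f i ≠ 0)
    (h : I → F[X]) (a : kˣ) (y : F) (hy : y ≠ 0)
    (heq : algebraMap L Ω (algebraMap k L a) * algebraMap F Ω y ^ n =
      ∏ i, ((((f i).map (algebraMap k L)).aroots Ω).map (fun ρ => aeval ρ (h i))).prod)
    (hroot : ∀ i, ∀ ρ ∈ ((f i).map (algebraMap k L)).aroots Ω, ∃ w ∈ N, w ^ n = aeval ρ (h i))
    (S : Sec L F Ω N) : a ^ Module.finrank k L ∈ NG n f := by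
  classical
  have hczL : CharZero L := charZero_of_injective_algebraMap (algebraMap k L).injective
  have hac : IsAlgClosure L (algebraicClosure L Ω) := inferInstance
  have hA : IsAlgClosed (algebraicClosure L Ω) := hac.1
  set P : I → Multiset L[X] := fun i =>
    UniqueFactorizationMonoid.normalizedFactors ((f i).map (algebraMap k L)) with hP
  have hfL : ∀ i, (f i).map (algebraMap k L) ≠ 0 := fun i =>
    (Polynomial.map_ne_zero_iff (algebraMap k L).injective).2 (hf i)
  have hirr : ∀ i, ∀ p ∈ P i, Irreducible p ∧ p.Monic ∧ p ∣ (f i).map (algebraMap k L) := by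
    intro i p hp
    have h1 := UniqueFactorizationMonoid.irreducible_of_normalized_factor p hp
    refine ⟨h1, ?_, UniqueFactorizationMonoid.dvd_of_mem_normalizedFactors hp⟩
    have h2 := UniqueFactorizationMonoid.normalize_normalized_factor p hp
    rw [← h2]
    exact Polynomial.monic_normalize h1.ne_zero
  have hex : ∀ t : (Σ i, (P i : Type _)), ∃ θ : algebraicClosure L Ω,
      minpoly L θ = (t.2 : L[X]) := by
    intro t
    obtain ⟨h1, h2, h3⟩ := hirr t.1 (t.2 : L[X]) (Multiset.coe_mem)
    obtain ⟨θ, hθ⟩ := IsAlgClosed.exists_aeval_eq_zero (algebraicClosure L Ω) (t.2 : L[X])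
      (degree_pos_of_irreducible h1).ne'
    exact ⟨θ, (minpoly.eq_of_irreducible_of_monic h1 hθ h2).symm⟩
  choose θ hθ using hex
  have hprod : ∏ t : (Σ i, (P i : Type _)), ((((minpoly L (θ t)).aroots
      (algebraicClosure L Ω)).map (fun ρ : algebraicClosure L Ω =>
        aeval (ρ : Ω) (h t.1))).prod) =
      algebraMap L Ω (algebraMap k L a) * algebraMap F Ω y ^ n := by
    rw [heq, Fintype.prod_sigma]
    refine Finset.prod_congr rfl fun i _ => ?_
    rw [prod_roots ((f i).map (algebraMap k L)) (fun ρ => aeval ρ (h i)) (P i)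
      (UniqueFactorizationMonoid.zero_notMem_normalizedFactors _)
      (UniqueFactorizationMonoid.prod_normalizedFactors (hfL i))]
    have h1 : ∀ p : L[X], ((p.aroots (algebraicClosure L Ω)).map
        (fun ρ : algebraicClosure L Ω => aeval (ρ : Ω) (h i))).prod =
        ((p.aroots Ω).map (fun ρ => aeval ρ (h i))).prod := by
      intro p
      have h2 : (p.map (algebraMap L (algebraicClosure L Ω))).Splits := IsAlgClosed.splits _
      rw [← h2.map_aroots_algebraMap (B := Ω), Multiset.map_map]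
      rfl
    have h3 : ∀ x : (P i : Type _), ((((minpoly L (θ ⟨i, x⟩)).aroots
        (algebraicClosure L Ω)).map (fun ρ : algebraicClosure L Ω =>
          aeval (ρ : Ω) (h i))).prod) = (((x : L[X]).aroots Ω).map (fun ρ => aeval ρ (h i))).prod := by
      intro x
      rw [hθ ⟨i, x⟩, h1]
    rw [Finset.prod_congr rfl fun x _ => h3 x]
    conv_rhs => rw [← Multiset.map_univ_coe (P i)]
    rw [Multiset.map_map]
    rfl
  obtain ⟨c, r, hcr⟩ := sec_norm N hN hn θ (fun t => h t.1) (algebraMap k L a)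
    ((_root_.map_ne_zero _).2 a.ne_zero) y hy (fun t => by
      refine hroot t.1 (θ t : Ω) ?_
      rw [mem_aroots]
      refine ⟨hfL _, ?_⟩
      obtain ⟨h1, h2, h3⟩ := hirr t.1 (t.2 : L[X]) (Multiset.coe_mem)
      have h4 : aeval (θ t) ((f t.1).map (algebraMap k L)) = 0 := by
        obtain ⟨q, hq⟩ := h3
        rw [hq, map_mul, ← hθ t, minpoly.aeval, zero_mul]
      rw [← IntermediateField.algebraMap_apply, aeval_algebraMap_apply, h4, map_zero]) hprod S
  have hfin : ∀ t, FiniteDimensional L L⟮θ t⟯ := fun t =>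
    adjoin.finiteDimensional (Algebra.IsIntegral.isIntegral _)
  have hnn : Algebra.norm k (algebraMap k L (a : k)) = Algebra.norm k r ^ n *
      ∏ t, Algebra.norm k (Algebra.norm L (c t)) := by
    rw [hcr, map_mul, map_pow, map_prod]
  rw [Algebra.norm_algebraMap] at hnn
  have ha0 : (a : k) ^ Module.finrank k L ≠ 0 := pow_ne_zero _ a.ne_zero
  have hr0 : Algebra.norm k r ≠ 0 := by
    intro h1
    rw [h1, zero_pow hn.ne', zero_mul] at hnn
    exact ha0 hnn
  have ht0 : ∀ t, Algebra.norm k (Algebra.norm L (c t)) ≠ 0 := by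
    intro t h1
    rw [Finset.prod_eq_zero (Finset.mem_univ t) h1, mul_zero] at hnn
    exact ha0 hnn
  have hunit : a ^ Module.finrank k L = (Units.mk0 _ hr0) ^ n *
      ∏ t, Units.mk0 _ (ht0 t) := by
    apply Units.ext
    rw [Units.val_pow_eq_pow_val, hnn, Units.val_mul, Units.val_pow_eq_pow_val, Units.coe_prod]
    rfl
  rw [hunit]
  refine Subgroup.mul_mem _ (Subgroup.subset_closure (Or.inl ⟨_, rfl⟩)) ?_
  refine Subgroup.prod_mem _ fun t _ => ?_
  let _ : Algebra k L⟮θ t⟯ := ((algebraMap L L⟮θ t⟯).comp (algebraMap k L)).toAlgebra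
  have hst : IsScalarTower k L L⟮θ t⟯ := IsScalarTower.of_algebraMap_eq (fun _ => rfl)
  have hfk : FiniteDimensional k L⟮θ t⟯ := FiniteDimensional.trans k L L⟮θ t⟯
  refine norm_mem_NG n f t.1 (AdjoinSimple.gen L (θ t)) ?_ (c t) _ ?_
  · obtain ⟨h1, h2, h3⟩ := hirr t.1 (t.2 : L[X]) (Multiset.coe_mem)
    apply (algebraMap L⟮θ t⟯ (algebraicClosure L Ω)).injective
    rw [map_zero]
    have h4 : aeval (θ t) ((f t.1).map (algebraMap k L)) = 0 := by
      obtain ⟨q, hq⟩ := h3
      rw [hq, map_mul, ← hθ t, minpoly.aeval, zero_mul]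
    have h5 : aeval (AdjoinSimple.gen L (θ t)) (f t.1) =
        aeval (AdjoinSimple.gen L (θ t)) ((f t.1).map (algebraMap k L)) := by
      rw [aeval_map_algebraMap]
    rw [h5, ← aeval_algebraMap_apply, AdjoinSimple.algebraMap_gen, h4]
  · rw [Units.val_mk0, Algebra.norm_norm]

end Pool.Agent.K3h23.BI
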