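import Mathlib

/-!
# Valuations of norms from extensions without residue extensions of small degree
-/

set_option autoImplicit false
set_option linter.unusedSectionVars false

namespace Pool.Agent.K3h23.BI

open Polynomial

/-- the valuation of `z` is divisible by `M` -/
def VDiv {R k : Type*} [CommRing R] [Field k] [Algebra R k] (ϖ : R) (M : ℕ) (z : k) : Prop :=
  ∃ (t : Rˣ) (m : ℤ), (M : ℤ) ∣ m ∧ z = algebraMap R k t * algebraMap R k ϖ ^ m

section basic

variable {R k : Type*} [CommRing R] [IsDomain R] [IsDiscreteValuationRing R] [Field k]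
  [Algebra R k] [IsFractionRing R k] {ϖ : R} (hϖ : Irreducible ϖ) {M : ℕ}

include hϖ in
lemma ϖ_ne : algebraMap R k ϖ ≠ 0 := by
  intro h
  exact hϖ.ne_zero (IsFractionRing.injective R k (by rw [h, map_zero]))

include hϖ in
lemma VDiv.mul {x y : k} (hx : VDiv ϖ M x) (hy : VDiv ϖ M y) : VDiv ϖ M (x * y) := by
  obtain ⟨t, m, hm, rfl⟩ := hx
  obtain ⟨t', m', hm', rfl⟩ := hy
  refine ⟨t * t', m + m', dvd_add hm hm', ?_⟩
  rw [zpow_add₀ (ϖ_ne hϖ), Units.val_mul, map_mul]
  ring

include hϖ in
lemma VDiv.inv {x : k} (hx : VDiv ϖ M x) : VDiv ϖ M x⁻¹ := by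
  obtain ⟨t, m, hm, rfl⟩ := hx
  refine ⟨t⁻¹, -m, (dvd_neg).2 hm, ?_⟩
  have h1 : algebraMap R k (t : R) * algebraMap R k ((t⁻¹ : Rˣ) : R) = 1 := by
    rw [← map_mul, Units.mul_inv, map_one]
  rw [mul_inv, zpow_neg, eq_inv_of_mul_eq_one_right h1]

lemma VDiv.one : VDiv ϖ M (1 : k) := ⟨1, 0, dvd_zero _, by simp⟩

include hϖ in
/-- every nonzero element has a valuation -/
lemma exists_val (z : k) (hz : z ≠ 0) : ∃ (t : Rˣ) (m : ℤ),
    z = algebraMap R k t * algebraMap R k ϖ ^ m := by
  obtain ⟨x, y, hy, rfl⟩ := IsFractionRing.div_surjective (A := R) z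
  have hx : x ≠ 0 := by
    rintro rfl
    simp at hz
  have hy0 : y ≠ 0 := nonZeroDivisors.ne_zero hy
  obtain ⟨i, t, rfl⟩ := IsDiscreteValuationRing.eq_unit_mul_pow_irreducible hx hϖ
  obtain ⟨j, t', rfl⟩ := IsDiscreteValuationRing.eq_unit_mul_pow_irreducible hy0 hϖ
  refine ⟨t * t'⁻¹, (i : ℤ) - j, ?_⟩
  have h1 : algebraMap R k (t' : R) * algebraMap R k ((t'⁻¹ : Rˣ) : R) = 1 := by
    rw [← map_mul, Units.mul_inv, map_one]
  have h0 := ϖ_ne (k := k) hϖ
  have ht' : algebraMap R k (t' : R) ≠ 0 := left_ne_zero_of_mul_eq_one h1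
  rw [zpow_sub₀ h0, Units.val_mul, map_mul, map_mul, map_mul, map_pow, map_pow,
    ← inv_eq_of_mul_eq_one_right h1, zpow_natCast, zpow_natCast]
  field_simp

include hϖ in
/-- uniqueness of the valuation -/
lemma val_unique (t t' : Rˣ) (m m' : ℤ)
    (h : algebraMap R k t * algebraMap R k ϖ ^ m = algebraMap R k t' * algebraMap R k ϖ ^ m') :
    m = m' := by
  wlog hle : m ≤ m' generalizing t t' m m'
  · exact (this t' t m' m h.symm (by omega)).symm
  have h0 := ϖ_ne (k := k) hϖ
  obtain ⟨j, hj⟩ : ∃ j : ℕ, m' = m + j := ⟨(m' - m).toNat, by omega⟩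
  subst hj
  rw [zpow_add₀ h0] at h
  have h1 : algebraMap R k (t : R) = algebraMap R k ((t' : R) * ϖ ^ j) := by
    rw [map_mul, map_pow]
    have h2 := zpow_ne_zero m h0
    apply mul_right_cancel₀ h2
    rw [h, zpow_natCast]
    ring
  have h2 : (t : R) = t' * ϖ ^ j := IsFractionRing.injective R k h1
  rcases Nat.eq_zero_or_pos j with rfl | hj
  · simp
  · exfalso
    have h3 : ϖ ∣ (t : R) := by
      rw [h2]
      exact (dvd_pow_self _ hj.ne').mul_left _
    exact hϖ.not_isUnit (isUnit_of_dvd_unit h3 t.isUnit)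

include hϖ in
lemma VDiv.pow {x : k} (hx : x ≠ 0) {n : ℕ} (hn : M ∣ n) : VDiv ϖ M (x ^ n) := by
  obtain ⟨t, m, rfl⟩ := exists_val hϖ x hx
  refine ⟨t ^ n, m * n, Dvd.dvd.mul_left (by exact_mod_cast hn) _, ?_⟩
  rw [mul_pow, ← zpow_natCast, ← zpow_natCast, ← zpow_mul, Units.val_pow_eq_pow_val, map_pow,
    zpow_natCast]

end basic

section norm

variable {R : Type*} [CommRing R] [IsDomain R] [IsDiscreteValuationRing R]

open IsLocalRing

/-- the residue degrees -/
lemma dvd_inertia {S : Type*} [CommRing S] [IsDomain S] [Algebra R S] [Module.Finite R S]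
    (M : ℕ) (f : R[X])
    (hM : ∀ g : (ResidueField R)[X], Irreducible g → g ∣ f.map (residue R) → M ∣ g.natDegree)
    (θ : S) (hθ : aeval θ f = 0) (P : Ideal S) [hP : P.IsMaximal]
    [hlies : P.LiesOver (maximalIdeal R)] : M ∣ P.inertiaDeg R := by
  classical
  rw [Ideal.inertiaDeg_eq_of_isMaximal (maximalIdeal R) P]
  let _ : Field (R ⧸ maximalIdeal R) := Ideal.Quotient.field _
  let _ : Field (S ⧸ P) := Ideal.Quotient.field _
  have hfin : FiniteDimensional (R ⧸ maximalIdeal R) (S ⧸ P) := inferInstance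
  set θ' : S ⧸ P := Ideal.Quotient.mk P θ with hθ'
  have h1 : aeval θ' (f.map (Ideal.Quotient.mk (maximalIdeal R))) = 0 := by
    have h2 : (algebraMap (R ⧸ maximalIdeal R) (S ⧸ P)).comp (Ideal.Quotient.mk (maximalIdeal R)) =
        (Ideal.Quotient.mk P).comp (algebraMap R S) := rfl
    rw [aeval_def, eval₂_map, h2, ← hom_eval₂, ← aeval_def, hθ, map_zero]
  have hint : IsIntegral (R ⧸ maximalIdeal R) θ' := Algebra.IsIntegral.isIntegral _
  have h2 : M ∣ (minpoly (R ⧸ maximalIdeal R) θ').natDegree :=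
    hM _ (minpoly.irreducible hint) (minpoly.dvd _ _ h1)
  have h3 : (minpoly (R ⧸ maximalIdeal R) θ').natDegree ∣
      Module.finrank (R ⧸ maximalIdeal R) (S ⧸ P) := minpoly.degree_dvd hint
  exact h2.trans h3

/-- the relative norms of the ideals -/
lemma relNorm_pow {S : Type*} [CommRing S] [IsDedekindDomain S] [Algebra R S] [Module.Finite R S]
    [Module.IsTorsionFree R S] [CharZero R] (M : ℕ) (f : R[X])
    (hM : ∀ g : (ResidueField R)[X], Irreducible g → g ∣ f.map (residue R) → M ∣ g.natDegree)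
    (θ : S) (hθ : aeval θ f = 0) (I : Ideal S) (hI : I ≠ ⊥) :
    ∃ j : ℕ, Ideal.relNorm R I = maximalIdeal R ^ (M * j) := by
  classical
  have hcz : CharZero (FractionRing R) := inferInstance
  induction I using UniqueFactorizationMonoid.induction_on_prime with
  | h₁ => exact absurd rfl hI
  | h₂ x hx =>
    refine ⟨0, ?_⟩
    rw [Ideal.isUnit_iff.1 hx, Ideal.relNorm_top, mul_zero, pow_zero, Ideal.one_eq_top]
  | h₃ a p ha hp ih =>
    obtain ⟨j, hj⟩ := ih ha
    have hpp : p.IsPrime := Ideal.isPrime_of_prime hp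
    have hpm : p.IsMaximal := hpp.isMaximal hp.ne_zero
    have hum : (p.under R).IsMaximal := Ideal.isMaximal_comap_of_isIntegral_of_isMaximal p
    have hlies : p.LiesOver (maximalIdeal R) := by
      constructor
      exact (IsLocalRing.eq_maximalIdeal hum).symm
    obtain ⟨i, hi⟩ := dvd_inertia M f hM θ hθ p
    refine ⟨i + j, ?_⟩
    rw [map_mul, hj, Ideal.relNorm_eq_pow_of_isMaximal p (maximalIdeal R), hi, ← pow_add, mul_add]

variable {k E : Type*} [Field k] [CharZero k] [Algebra R k] [IsFractionRing R k] [Field E]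
  [Algebra k E] [FiniteDimensional k E]

/-- the valuations of the norms from `E` are divisible by `M`, if `E` contains a root of `f` and the
degrees of the irreducible factors of the reduction of `f` are divisible by `M` -/
theorem norm_vdiv {ϖ : R} (hϖ : Irreducible ϖ) (M : ℕ) (f : R[X])
    (hM : ∀ g : (ResidueField R)[X], Irreducible g → g ∣ f.map (residue R) → M ∣ g.natDegree)
    (hlc : IsUnit f.leadingCoeff)
    (θ : E) (hθ : aeval θ (f.map (algebraMap R k)) = 0) (c : E) (hc : c ≠ 0) :
    VDiv ϖ M (Algebra.norm k c) := by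
  classical
  let _ : Algebra R E := ((algebraMap k E).comp (algebraMap R k)).toAlgebra
  have hst : IsScalarTower R k E := IsScalarTower.of_algebraMap_eq (fun _ => rfl)
  have hczR : CharZero R := (algebraMap R k).charZero
  have hsep : Algebra.IsSeparable k E := inferInstance
  let S := integralClosure R E
  have hfr : IsFractionRing S E := integralClosure.isFractionRing_of_finite_extension k E
  have hded : IsDedekindDomain S := integralClosure.isDedekindDomain R k E
  have hfinS : Module.Finite R S := IsIntegralClosure.finite R k E S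
  have hRE : Function.Injective (algebraMap R E) := by
    rw [IsScalarTower.algebraMap_eq R k E]
    exact (algebraMap k E).injective.comp (IsFractionRing.injective R k)
  have hRS : Function.Injective (algebraMap R S) := by
    intro x y hxy
    apply hRE
    rw [IsScalarTower.algebraMap_apply R S E, hxy, ← IsScalarTower.algebraMap_apply R S E]
  have htf : Module.IsTorsionFree R S :=
    (Module.isTorsionFree_iff_algebraMap_injective (R := R) (A := S)).2 hRS
  -- the root is integral
  have hθE : aeval θ f = 0 := by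
    rw [aeval_map_algebraMap] at hθ
    exact hθ
  obtain ⟨u, hu⟩ := hlc
  have hθint : IsIntegral R θ := by
    refine ⟨C ((u⁻¹ : Rˣ) : R) * f, ?_, ?_⟩
    · rw [Monic, leadingCoeff_mul, leadingCoeff_C, ← hu, Units.inv_mul]
    · rw [eval₂_mul, ← aeval_def, ← aeval_def, hθE, mul_zero]
  set θS : S := ⟨θ, hθint⟩ with hθS
  have hθS0 : aeval θS f = 0 := by
    apply (IsFractionRing.injective S E)
    rw [map_zero, ← hθE, ← aeval_algebraMap_apply]
    rfl
  -- elements of the integral closure
  have hkey : ∀ s : S, s ≠ 0 → VDiv ϖ M (Algebra.norm k (algebraMap S E s)) := by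
    intro s hs
    obtain ⟨j, hj⟩ := relNorm_pow M f hM θS hθS0
      (Ideal.span {s}) (by rwa [Ne, Ideal.span_singleton_eq_bot])
    rw [Ideal.relNorm_singleton, hϖ.maximalIdeal_eq, Ideal.span_singleton_pow,
      Ideal.span_singleton_eq_span_singleton] at hj
    obtain ⟨v, hv⟩ := hj.symm
    refine ⟨v, (M : ℤ) * j, dvd_mul_right _ _, ?_⟩
    rw [← Algebra.algebraMap_intNorm (A := R) (K := k) (L := E) (B := S), ← hv, map_mul, map_pow,
      mul_comm, ← zpow_natCast]
    push_cast
    rfl
  obtain ⟨a, b, hb, rfl⟩ := IsFractionRing.div_surjective (A := S) c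
  have ha0 : a ≠ 0 := by
    rintro rfl
    simp at hc
  have hb0 : b ≠ 0 := nonZeroDivisors.ne_zero hb
  have hbE : algebraMap S E b ≠ 0 := by
    rintro h
    rw [h, div_zero] at hc
    exact hc rfl
  have h1 : Algebra.norm k (algebraMap S E a / algebraMap S E b) =
      Algebra.norm k (algebraMap S E a) * (Algebra.norm k (algebraMap S E b))⁻¹ := by
    rw [eq_mul_inv_iff_mul_eq₀ ((Algebra.norm_ne_zero_iff).2 hbE), ← map_mul, div_mul_cancel₀ _ hbE]
  rw [h1]
  exact (hkey a ha0).mul hϖ ((hkey b hb0).inv hϖ)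

end norm

end Pool.Agent.K3h23.BI
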