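import Pool.Agent.W620.SC.Obstruction
import Pool.Agent.K3h23.BI.Val

/-!
# Sections of small quotients of the absolute Galois group of a function field, and norms
-/

set_option autoImplicit false

namespace Pool.Agent.K3h23.BI

open Polynomial IntermediateField Pool.Agent.W620.SC

universe u v w

section def_sec

variable (L : Type u) (F : Type v) (Ω : Type w) [Field L] [Field F] [Field Ω] [Algebra L F]
  [Algebra F Ω] [Algebra L Ω]

/-- the sections of `Gal(N/F) → Gal(L̄/L)` -/
structure Sec (N : IntermediateField F Ω) where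
  toHom : (algebraicClosure L Ω ≃ₐ[L] algebraicClosure L Ω) →* (N ≃ₐ[F] N)
  cont : Continuous toHom
  compat : ∀ σ (x : algebraicClosure L Ω) (y : N), (y : Ω) = x → (toHom σ y : Ω) = σ x

end def_sec

variable {k : Type u} {F : Type v} {Ω : Type w} [Field k] [Field F] [Field Ω] [Algebra k F]
  [Algebra F Ω] [Algebra k Ω] [IsScalarTower k F Ω]

theorem sec_norm [CharZero k] [IsAlgClosed Ω] [Algebra.IsAlgebraic F Ω]
    (N : IntermediateField F Ω) (hN : ∀ x ∈ algebraicClosure k Ω, x ∈ N)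
    {n : ℕ} (hn : 0 < n) {I : Type*} [Fintype I] (θ : I → algebraicClosure k Ω) (Z : I → F[X])
    (a : k) (ha : a ≠ 0) (g : F) (hg : g ≠ 0)
    (hroot : ∀ i, ∃ w ∈ N, w ^ n = aeval (θ i : Ω) (Z i))
    (hnorm : ∏ i, ((((minpoly k (θ i)).aroots (algebraicClosure k Ω)).map
      (fun ρ : algebraicClosure k Ω => aeval (ρ : Ω) (Z i))).prod) =
        algebraMap k Ω a * algebraMap F Ω g ^ n)
    (S : Sec k F Ω N) :
    ∃ (c : ∀ i, k⟮θ i⟯) (r : k), a = r ^ n * ∏ i, Algebra.norm k (c i) := by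
  classical
  have hint : ∀ i, IsIntegral k (θ i) := fun i => Algebra.IsIntegral.isIntegral _
  have hac : IsAlgClosure k (algebraicClosure k Ω) := inferInstance
  have hA : IsAlgClosed (algebraicClosure k Ω) := hac.1
  have hz0 : ∀ i, aeval (θ i : Ω) (Z i) ≠ 0 := by
    intro i hz
    have h1 : algebraMap k Ω a * algebraMap F Ω g ^ n ≠ 0 :=
      mul_ne_zero ((_root_.map_ne_zero _).2 ha) (pow_ne_zero _ ((_root_.map_ne_zero _).2 hg))
    rw [← hnorm] at h1
    apply h1
    refine Finset.prod_eq_zero (Finset.mem_univ i) ?_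
    rw [Multiset.prod_eq_zero_iff, Multiset.mem_map]
    refine ⟨θ i, ?_, hz⟩
    rw [mem_aroots]
    exact ⟨minpoly.ne_zero (hint i), minpoly.aeval k (θ i)⟩
  choose w hwU hw using hroot
  have hw0 : ∀ i, w i ≠ 0 := by
    intro i h
    apply hz0 i
    rw [← hw, h, zero_pow hn.ne']
  set cst : algebraicClosure k Ω →+* N :=
    (algebraMap (algebraicClosure k Ω) Ω).codRestrict N (fun x => hN _ x.2) with hcst
  set s : (algebraicClosure k Ω ≃ₐ[k] algebraicClosure k Ω) →* RingAut N :=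
    (toRingAutHom F N).comp S.toHom with hs
  have hsapp : ∀ σ x, s σ x = S.toHom σ x := fun σ x => rfl
  have hι : ∀ σ x, s σ (cst x) = cst (σ x) := fun σ x =>
    Subtype.ext (S.compat σ x (cst x) rfl)
  have hE : ∀ i, ∃ E : IntermediateField k (algebraicClosure k Ω), FiniteDimensional k E ∧
      ∀ σ ∈ E.fixingSubgroup, s σ ⟨w i, hwU i⟩ = ⟨w i, hwU i⟩ := by
    intro i
    have h1 : {e : N ≃ₐ[F] N | e ⟨w i, hwU i⟩ = ⟨w i, hwU i⟩} ∈ nhds (1 : N ≃ₐ[F] N) := by
      rw [krullTopology_mem_nhds_one_iff]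
      refine ⟨F⟮(⟨w i, hwU i⟩ : N)⟯, ?_, ?_⟩
      · exact adjoin.finiteDimensional (Algebra.IsIntegral.isIntegral _)
      · intro e he
        exact (mem_fixingSubgroup_iff _ _).1 he _ (mem_adjoin_simple_self F _)
    have h2 := S.cont.tendsto 1
    rw [map_one] at h2
    have h3 := h2 h1
    rw [Filter.mem_map, krullTopology_mem_nhds_one_iff] at h3
    obtain ⟨E, hE, hE'⟩ := h3
    exact ⟨E, hE, fun σ hσ => hE' hσ⟩
  choose E hEf hE using hE
  have hKf : ∀ i, FiniteDimensional k k⟮θ i⟯ := fun i => adjoin.finiteDimensional (hint i)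
  have : Normal k (algebraicClosure k Ω) := IsAlgClosure.normal k _
  have hlf : ∀ i (φ : k⟮θ i⟯ →ₐ[k] algebraicClosure k Ω),
      ∃ σ : algebraicClosure k Ω ≃ₐ[k] algebraicClosure k Ω, ∀ x : k⟮θ i⟯, σ x = φ x :=
    fun i φ => exists_lift _ φ
  choose lf hlf using hlf
  -- the values
  have hval : ∀ i (σ : algebraicClosure k Ω ≃ₐ[k] algebraicClosure k Ω),
      ((s σ ((⟨w i, hwU i⟩ : N) ^ n) : N) : Ω) =
        aeval ((σ (θ i) : algebraicClosure k Ω) : Ω) (Z i) := by
    intro i σ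
    have h1 : (⟨w i, hwU i⟩ : N) ^ n = aeval (cst (θ i)) (Z i) := by
      apply Subtype.ext
      have h2 := Polynomial.aeval_algHom_apply N.val (cst (θ i)) (Z i)
      change w i ^ n = _
      rw [hw]
      exact h2
    rw [h1, hsapp]
    have h3 := Polynomial.aeval_algHom_apply
      (S.toHom σ : N →ₐ[F] N) (cst (θ i)) (Z i)
    have h4 : S.toHom σ (aeval (cst (θ i)) (Z i)) =
        aeval (S.toHom σ (cst (θ i))) (Z i) := h3.symm
    rw [h4]
    have h5 : S.toHom σ (cst (θ i)) = cst (σ (θ i)) := hι σ (θ i)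
    rw [h5]
    exact (Polynomial.aeval_algHom_apply N.val (cst (σ (θ i))) (Z i)).symm
  refine norm_principle s cst hι (fun i => k⟮θ i⟯) hn
    (fun i => (⟨w i, hwU i⟩ : N)) ?_ ?_ E hE lf hlf a
    (algebraMap F N g) ((_root_.map_ne_zero _).2 hg) ?_ ?_
  · intro i h
    exact hw0 i (congrArg Subtype.val h)
  · intro i σ hσ
    apply Subtype.ext
    have h1 : σ (θ i) = θ i := (mem_fixingSubgroup_iff _ _).1 hσ _ (mem_adjoin_simple_self k _)
    rw [hval, h1]
    exact (hw i).symm
  · intro σ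
    exact (S.toHom σ).commutes g
  · apply (algebraMap N Ω).injective
    rw [map_prod, map_mul, map_pow]
    have h1 : ∀ i, algebraMap N Ω (∏ φ : k⟮θ i⟯ →ₐ[k] algebraicClosure k Ω,
        s (lf i φ) ((⟨w i, hwU i⟩ : N) ^ n)) =
        (((minpoly k (θ i)).aroots (algebraicClosure k Ω)).map
          (fun ρ : algebraicClosure k Ω => aeval (ρ : Ω) (Z i))).prod := by
      intro i
      rw [map_prod, ← prod_embeddings (θ i) (hint i)
        (fun ρ : algebraicClosure k Ω => aeval (ρ : Ω) (Z i))]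
      refine Finset.prod_congr rfl fun φ _ => ?_
      have h2 := hval i (lf i φ)
      have h3 : lf i φ (θ i) = φ (AdjoinSimple.gen k (θ i)) := hlf i φ (AdjoinSimple.gen k (θ i))
      rw [h3] at h2
      exact h2
    rw [Finset.prod_congr rfl fun i _ => h1 i, hnorm]
    rfl

end Pool.Agent.K3h23.BI
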